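import Mathlib
import Pool.Agent.W528.Odd.Stms

/-!
# Clifford theory for a set of operators stable under conjugation
-/

set_option linter.unusedSectionVars false

namespace Pool.Agent.W528.Odd

open Module

noncomputable section

variable {K : Type} [Field K] {V : Type} [AddCommGroup V] [Module K V]
  [FiniteDimensional K V] {G : Type} [Group G] {r : Representation K G V}

/-- The subspace is stable under the set of operators. -/
def StU (S : Set (Module.End K V)) (W : Submodule K V) : Prop := ∀ x ∈ S, ∀ u ∈ W, x u ∈ W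

theorem StU.sup {S : Set (Module.End K V)} {W W' : Submodule K V} (h : StU S W) (h' : StU S W') :
    StU S (W ⊔ W') := by
  intro x hx u hu
  obtain ⟨a, ha, b, hb, rfl⟩ := Submodule.mem_sup.1 hu
  rw [map_add]
  exact Submodule.add_mem_sup (h x hx a ha) (h' x hx b hb)

theorem StU.inf {S : Set (Module.End K V)} {W W' : Submodule K V} (h : StU S W) (h' : StU S W') :
    StU S (W ⊓ W') := fun x hx u hu => ⟨h x hx u hu.1, h' x hx u hu.2⟩

theorem r_cancel (g : G) (v : V) : r g (r g⁻¹ v) = v := by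
  rw [← Module.End.mul_apply, ← map_mul, mul_inv_cancel, map_one]
  rfl

theorem r_cancel' (g : G) (v : V) : r g⁻¹ (r g v) = v := by
  rw [← Module.End.mul_apply, ← map_mul, inv_mul_cancel, map_one]
  rfl

theorem StU.map {S : Set (Module.End K V)} (hS : ∀ g, ∀ x ∈ S, r g * x * r g⁻¹ ∈ S)
    {W : Submodule K V} (h : StU S W) (g : G) : StU S (W.map (r g)) := by
  rintro x hx _ ⟨u, hu, rfl⟩
  have h1 := hS g⁻¹ x hx
  rw [inv_inv] at h1
  refine ⟨(r g⁻¹ * x * r g) u, h _ h1 u hu, ?_⟩
  rw [Module.End.mul_apply, Module.End.mul_apply, r_cancel]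

theorem clifford (hirr : ∀ W : Submodule K V, (∀ g, ∀ u ∈ W, r g u ∈ W) → W = ⊥ ∨ W = ⊤)
    {S : Set (Module.End K V)} (hS : ∀ g, ∀ x ∈ S, r g * x * r g⁻¹ ∈ S) {W : Submodule K V}
    (hW : StU S W) :
    ∃ P : Module.End K V, (∀ v, P v ∈ W) ∧ (∀ w ∈ W, P w = w) ∧ ∀ x ∈ S, P * x = x * P := by
  classical
  rcases subsingleton_or_nontrivial V with hV | hV
  · exact ⟨1, fun v => by rw [Subsingleton.elim ((1 : Module.End K V) v) 0]; exact W.zero_mem,
      fun w _ => rfl, fun x _ => by rw [one_mul, mul_one]⟩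
  -- a minimal stable subspace
  obtain ⟨T, hT, hT0, hTmin⟩ : ∃ T : Submodule K V, StU S T ∧ T ≠ ⊥ ∧
      ∀ T' ≤ T, StU S T' → T' = ⊥ ∨ T' = T := by
    have hex : ∃ n, ∃ T : Submodule K V, StU S T ∧ T ≠ ⊥ ∧ finrank K T = n :=
      ⟨_, ⊤, fun x _ u _ => Submodule.mem_top, top_ne_bot, rfl⟩
    obtain ⟨T, hT, hT0, hTn⟩ := Nat.find_spec hex
    refine ⟨T, hT, hT0, fun T' hle hT' => ?_⟩
    by_cases h0 : T' = ⊥
    · exact Or.inl h0
    right
    have h1 := Nat.find_min' hex ⟨T', hT', h0, rfl⟩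
    rw [← hTn] at h1
    exact Submodule.eq_of_le_of_finrank_le hle h1
  -- a maximal stable subspace that meets `W` trivially
  obtain ⟨C, hC, hCW, hCmax⟩ : ∃ C : Submodule K V, StU S C ∧ C ⊓ W = ⊥ ∧
      ∀ C', StU S C' → C' ⊓ W = ⊥ → finrank K C' ≤ finrank K C := by
    have hb : ∀ n, (∃ C : Submodule K V, StU S C ∧ C ⊓ W = ⊥ ∧ finrank K C = n) →
        n ≤ finrank K V := by
      rintro n ⟨C, -, -, rfl⟩
      exact Submodule.finrank_le C
    have h0 : ∃ C : Submodule K V, StU S C ∧ C ⊓ W = ⊥ ∧ finrank K C = 0 :=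
      ⟨⊥, fun x _ u hu => by
        rw [Submodule.mem_bot] at hu ⊢
        rw [hu, map_zero], bot_inf_eq _, finrank_bot K V⟩
    have h1 := Nat.findGreatest_spec (P := fun n => ∃ C : Submodule K V, StU S C ∧ C ⊓ W = ⊥ ∧
      finrank K C = n) (Nat.zero_le (finrank K V)) h0
    obtain ⟨C, hC, hCW, hCn⟩ := h1
    refine ⟨C, hC, hCW, fun C' hC' hCW' => ?_⟩
    rw [hCn]
    exact Nat.le_findGreatest (hb _ ⟨C', hC', hCW', rfl⟩) ⟨C', hC', hCW', rfl⟩
  have htop : C ⊔ W = ⊤ := by
    have hall : ∀ g, T.map (r g) ≤ C ⊔ W := by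
      intro g
      by_contra hcon
      have hgT := StU.map hS hT g
      have hinf : T.map (r g) ⊓ (C ⊔ W) = ⊥ := by
        have h1 : StU S ((T.map (r g) ⊓ (C ⊔ W)).map (r g⁻¹)) :=
          StU.map hS (hgT.inf (hC.sup hW)) g⁻¹
        have h2 : (T.map (r g) ⊓ (C ⊔ W)).map (r g⁻¹) ≤ T := by
          rintro _ ⟨_, ⟨⟨t, ht, rfl⟩, -⟩, rfl⟩
          rw [r_cancel']
          exact ht
        rcases hTmin _ h2 h1 with h3 | h3
        · rw [eq_bot_iff]
          intro v hv
          have h4 : r g⁻¹ v ∈ (T.map (r g) ⊓ (C ⊔ W)).map (r g⁻¹) := ⟨v, hv, rfl⟩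
          rw [h3, Submodule.mem_bot] at h4
          rw [Submodule.mem_bot, ← r_cancel (r := r) g v, h4, map_zero]
        · exfalso
          apply hcon
          rintro _ ⟨t, ht, rfl⟩
          rw [← h3] at ht
          obtain ⟨v, hv, hvt⟩ := ht
          rw [← hvt, r_cancel]
          exact hv.2
      have h1 : (C ⊔ T.map (r g)) ⊓ W = ⊥ := by
        rw [eq_bot_iff]
        rintro w ⟨hw1, hw2⟩
        obtain ⟨c, hc, t, ht, hct⟩ := Submodule.mem_sup.1 hw1
        have h2 : t ∈ T.map (r g) ⊓ (C ⊔ W) := by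
          refine ⟨ht, ?_⟩
          have h3 : t = -c + w := by rw [← hct]; abel
          rw [h3]
          exact Submodule.add_mem_sup (C.neg_mem hc) hw2
        rw [hinf, Submodule.mem_bot] at h2
        rw [h2, add_zero] at hct
        have h3 : w ∈ C ⊓ W := ⟨hct ▸ hc, hw2⟩
        rw [hCW] at h3
        exact h3
      have h2 := hCmax _ (hC.sup hgT) h1
      have h3 : C = C ⊔ T.map (r g) := Submodule.eq_of_le_of_finrank_le le_sup_left h2
      exact hcon (le_sup_of_le_left (h3 ▸ le_sup_right))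
    have h1 : (⨆ g, T.map (r g)) = ⊤ := by
      rcases hirr (⨆ g, T.map (r g)) (by
        intro h u hu
        have h2 : (⨆ g, T.map (r g)) ≤ (⨆ g, T.map (r g)).comap (r h) := by
          refine iSup_le fun g => ?_
          rintro _ ⟨t, ht, rfl⟩
          refine Submodule.mem_iSup_of_mem (h * g) ⟨t, ht, ?_⟩
          rw [map_mul]
          rfl
        exact h2 hu) with h2 | h2
      · exfalso
        apply hT0
        rw [eq_bot_iff, ← h2]
        intro t ht
        refine Submodule.mem_iSup_of_mem 1 ⟨t, ht, ?_⟩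
        rw [map_one]
        rfl
      · exact h2
    rw [eq_top_iff, ← h1]
    exact iSup_le hall
  have hcompl : IsCompl W C := by
    refine ⟨disjoint_iff.2 (by rw [inf_comm]; exact hCW), codisjoint_iff.2 (by
      rw [sup_comm]; exact htop)⟩
  refine ⟨W.subtype.comp (W.projectionOnto C hcompl), fun v => SetLike.coe_mem _,
    fun w hw => ?_, fun x hx => ?_⟩
  · rw [LinearMap.comp_apply]
    have h1 := Submodule.projectionOnto_apply_left hcompl ⟨w, hw⟩
    exact congrArg Subtype.val h1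
  · refine LinearMap.ext fun v => ?_
    have hv : v ∈ W ⊔ C := by rw [sup_comm, htop]; trivial
    obtain ⟨w, hw, c, hc, rfl⟩ := Submodule.mem_sup.1 hv
    have hPw : ∀ w ∈ W, (W.subtype.comp (W.projectionOnto C hcompl)) w = w := by
      intro w hw
      have h1 := Submodule.projectionOnto_apply_left hcompl ⟨w, hw⟩
      exact congrArg Subtype.val h1
    have hPc : ∀ c ∈ C, (W.subtype.comp (W.projectionOnto C hcompl)) c = 0 := by
      intro c hc
      rw [LinearMap.comp_apply, (Submodule.projectionOnto_apply_eq_zero_iff hcompl).2 hc,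
        map_zero]
    rw [Module.End.mul_apply, Module.End.mul_apply, map_add, map_add, map_add, hPw w hw, hPc c hc,
      hPw _ (hW x hx w hw), hPc _ (hC x hx c hc), map_add, map_zero]

end

end Pool.Agent.W528.Odd
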