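import Mathlib
import Pool.Agent.W528.Odd.Alg

/-!
# Peirce decompositions
-/

set_option linter.unusedSectionVars false

namespace Pool.Agent.W528.Odd

open Module

noncomputable section

variable {K : Type} [Field K] [CharZero K] {V : Type} [AddCommGroup V] [Module K V]
  [FiniteDimensional K V]
variable {𝔥 : Submodule K (Module.End K V)} {p : Module.End K V}

theorem AA_mul {a b : Module.End K V} (ha : a ∈ AA 𝔥 p) (hb : b ∈ AA 𝔥 p) : a * b = 0 := by
  rw [← hb.2.1, ← mul_assoc, ha.2.2, zero_mul]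

theorem BB_right {b : Module.End K V} (hb : b ∈ AA 𝔥 (1 - p)) : b * p = b := by
  have h := hb.2.2
  rw [mul_sub, mul_one, sub_eq_zero] at h
  exact h.symm

theorem BB_left {b : Module.End K V} (hb : b ∈ AA 𝔥 (1 - p)) : p * b = 0 := by
  have h := hb.2.1
  rw [sub_mul, one_mul, sub_eq_self] at h
  exact h

theorem AA_right {a : Module.End K V} (ha : a ∈ AA 𝔥 p) : a * (1 - p) = a := by
  rw [mul_sub, mul_one, ha.2.2, sub_zero]

theorem AA_left {a : Module.End K V} (ha : a ∈ AA 𝔥 p) : (1 - p) * a = 0 := by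
  rw [sub_mul, one_mul, ha.2.1, sub_self]

/-- A pair of elements `E`, `F` of degree one and minus one with `E F E = E` and `F E F = F`. -/
structure Pr (𝔥 : Submodule K (Module.End K V)) (p E F : Module.End K V) : Prop where
  eA : E ∈ AA 𝔥 p
  fA : F ∈ AA 𝔥 (1 - p)
  efe : E * F * E = E
  fef : F * E * F = F

variable {E F : Module.End K V}

theorem Pr.swap (h : Pr 𝔥 p E F) : Pr 𝔥 (1 - p) F E :=
  ⟨h.fA, by rw [sub_sub_cancel]; exact h.eA, h.fef, h.efe⟩

theorem Pr.br_mem (h : Pr 𝔥 p E F) (hbr : ∀ X ∈ 𝔥, ∀ Y ∈ 𝔥, X * Y - Y * X ∈ 𝔥) :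
    E * F - F * E ∈ 𝔥 := hbr _ h.eA.1 _ h.fA.1

theorem Pr.idem (h : Pr 𝔥 p E F) : (E * F) * (E * F) = E * F := by
  rw [← mul_assoc, h.efe]

theorem Pr.idem' (h : Pr 𝔥 p E F) : (F * E) * (F * E) = F * E := by
  rw [← mul_assoc, h.fef]

theorem Pr.orth (h : Pr 𝔥 p E F) : (E * F) * (F * E) = 0 := by
  have h1 : (E * F) * (F * E) = E * (F * F) * E := by noncomm_ring
  rw [h1, AA_mul h.fA h.fA, mul_zero, zero_mul]

theorem Pr.orth' (h : Pr 𝔥 p E F) : (F * E) * (E * F) = 0 := by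
  have h1 : (F * E) * (E * F) = F * (E * E) * F := by noncomm_ring
  rw [h1, AA_mul h.eA h.eA, mul_zero, zero_mul]

/-- The operator `L`. -/
theorem Pr.L_mem (h : Pr 𝔥 p E F) (hbr : ∀ X ∈ 𝔥, ∀ Y ∈ 𝔥, X * Y - Y * X ∈ 𝔥)
    {a : Module.End K V} (ha : a ∈ AA 𝔥 p) : E * F * a + a * (F * E) ∈ AA 𝔥 p := by
  have h1 := hbr _ (h.br_mem hbr) _ ha.1
  have h2 : (E * F - F * E) * a - a * (E * F - F * E) = E * F * a + a * (F * E) := by
    have h3 : (E * F - F * E) * a - a * (E * F - F * E) =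
        E * F * a + a * (F * E) - F * (E * a) - (a * E) * F := by noncomm_ring
    rw [h3, AA_mul h.eA ha, AA_mul ha h.eA, mul_zero, zero_mul, sub_zero, sub_zero]
  rw [h2] at h1
  refine ⟨h1, ?_, ?_⟩
  · have h3 : p * (E * F * a + a * (F * E)) = (p * E) * F * a + (p * a) * (F * E) := by
      noncomm_ring
    rw [h3, h.eA.2.1, ha.2.1]
  · have h3 : (E * F * a + a * (F * E)) * p = E * F * (a * p) + a * F * (E * p) := by
      noncomm_ring
    rw [h3, h.eA.2.2, ha.2.2, mul_zero, mul_zero, add_zero]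

theorem Pr.two_mem (h : Pr 𝔥 p E F) (hbr : ∀ X ∈ 𝔥, ∀ Y ∈ 𝔥, X * Y - Y * X ∈ 𝔥)
    {a : Module.End K V} (ha : a ∈ AA 𝔥 p) : E * F * a * (F * E) ∈ AA 𝔥 p := by
  have h1 := h.L_mem hbr ha
  have h2 := h.L_mem hbr h1
  have h3 : E * F * a * (F * E) = (1 / 2 : K) •
      ((E * F * (E * F * a + a * (F * E)) + (E * F * a + a * (F * E)) * (F * E)) -
        (E * F * a + a * (F * E))) := by
    have h4 : (E * F * (E * F * a + a * (F * E)) + (E * F * a + a * (F * E)) * (F * E)) -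
        (E * F * a + a * (F * E)) = (((E * F) * (E * F)) * a + E * F * a * (F * E) +
          E * F * a * (F * E) + a * ((F * E) * (F * E))) - (E * F * a + a * (F * E)) := by
      noncomm_ring
    rw [h4, h.idem, h.idem']
    module
  rw [h3]
  exact Submodule.smul_mem _ _ (Submodule.sub_mem _ h2 h1)

theorem Pr.half_mem (h : Pr 𝔥 p E F) (hbr : ∀ X ∈ 𝔥, ∀ Y ∈ 𝔥, X * Y - Y * X ∈ 𝔥)
    {a : Module.End K V} (ha : a ∈ AA 𝔥 p) :
    E * F * a + a * (F * E) - (2 : K) • (E * F * a * (F * E)) ∈ AA 𝔥 p :=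
  Submodule.sub_mem _ (h.L_mem hbr ha) (Submodule.smul_mem _ _ (h.two_mem hbr ha))

theorem Pr.zero_mem (h : Pr 𝔥 p E F) (hbr : ∀ X ∈ 𝔥, ∀ Y ∈ 𝔥, X * Y - Y * X ∈ 𝔥)
    {a : Module.End K V} (ha : a ∈ AA 𝔥 p) :
    (1 - E * F) * a * (1 - F * E) ∈ AA 𝔥 p := by
  have h1 : (1 - E * F) * a * (1 - F * E) =
      a - (E * F * a + a * (F * E)) + E * F * a * (F * E) := by noncomm_ring
  rw [h1]
  exact Submodule.add_mem _ (Submodule.sub_mem _ ha (h.L_mem hbr ha)) (h.two_mem hbr ha)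

/-- The elements of Peirce degree zero. -/
def A0 (𝔥 : Submodule K (Module.End K V)) (p P P' : Module.End K V) :
    Submodule K (Module.End K V) where
  carrier := {a | a ∈ AA 𝔥 p ∧ P * a = 0 ∧ a * P' = 0}
  add_mem' := by
    rintro a b ⟨h1, h2, h3⟩ ⟨h4, h5, h6⟩
    exact ⟨Submodule.add_mem _ h1 h4, by rw [mul_add, h2, h5, add_zero],
      by rw [add_mul, h3, h6, add_zero]⟩
  zero_mem' := ⟨Submodule.zero_mem _, mul_zero _, zero_mul _⟩
  smul_mem' := by
    rintro c a ⟨h1, h2, h3⟩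
    exact ⟨Submodule.smul_mem _ _ h1, by rw [mul_smul_comm, h2, smul_zero],
      by rw [smul_mul_assoc, h3, smul_zero]⟩

/-- If `E` has only elements of Peirce degree zero and one half equal to zero. -/
theorem Pr.two_of (h : Pr 𝔥 p E F) (hbr : ∀ X ∈ 𝔥, ∀ Y ∈ 𝔥, X * Y - Y * X ∈ 𝔥)
    (h0 : A0 𝔥 p (E * F) (F * E) = ⊥)
    (hhalf : ∀ x ∈ AA 𝔥 p, E * F * x * (F * E) = 0 → E * F * x + x * (F * E) = x → x = 0)
    {a : Module.End K V} (ha : a ∈ AA 𝔥 p) : E * F * a * (F * E) = a := by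
  have h1 : (1 - E * F) * a * (1 - F * E) ∈ A0 𝔥 p (E * F) (F * E) := by
    refine ⟨h.zero_mem hbr ha, ?_, ?_⟩
    · have h2 : E * F * ((1 - E * F) * a * (1 - F * E)) =
          (E * F - (E * F) * (E * F)) * (a * (1 - F * E)) := by noncomm_ring
      rw [h2, h.idem, sub_self, zero_mul]
    · have h2 : (1 - E * F) * a * (1 - F * E) * (F * E) =
          (1 - E * F) * a * (F * E - (F * E) * (F * E)) := by noncomm_ring
      rw [h2, h.idem', sub_self, mul_zero]
  rw [h0, Submodule.mem_bot] at h1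
  have h2 : (1 - E * F) * a * (1 - F * E) =
      a - (E * F * a + a * (F * E)) + E * F * a * (F * E) := by noncomm_ring
  rw [h2] at h1
  set x := E * F * a + a * (F * E) - (2 : K) • (E * F * a * (F * E)) with hx
  have h3 := h.half_mem hbr ha
  have hPP := h.idem
  have hPP' := h.idem'
  have h4 : E * F * x * (F * E) = 0 := by
    have h5 : E * F * x * (F * E) = (((E * F) * (E * F)) * a * (F * E) +
        E * F * a * ((F * E) * (F * E))) -
        (2 : K) • (((E * F) * (E * F)) * a * ((F * E) * (F * E))) := by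
      rw [hx, mul_sub, sub_mul, mul_smul_comm, smul_mul_assoc]
      congr 1
      noncomm_ring
    rw [h5, hPP, hPP']
    module
  have h6 : E * F * x + x * (F * E) = x := by
    have h5 : E * F * x + x * (F * E) = (((E * F) * (E * F)) * a + E * F * a * (F * E)) +
        (E * F * a * (F * E) + a * ((F * E) * (F * E))) -
        (2 : K) • (((E * F) * (E * F)) * a * (F * E) + E * F * a * ((F * E) * (F * E))) := by
      rw [hx, mul_sub, sub_mul, mul_smul_comm, smul_mul_assoc, smul_add, add_sub_add_comm]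
      congr 1
      noncomm_ring
    rw [h5, hPP, hPP', hx]
    module
  have h7 := hhalf x h3 h4 h6
  have h8 : a = x + E * F * a * (F * E) := by
    have h9 : a = (a - (E * F * a + a * (F * E)) + E * F * a * (F * E)) +
      (E * F * a + a * (F * E)) - E * F * a * (F * E) := by abel
    rw [h1, zero_add] at h9
    rw [hx]
    calc a = E * F * a + a * (F * E) - E * F * a * (F * E) := h9
      _ = E * F * a + a * (F * E) - (2 : K) • (E * F * a * (F * E)) + E * F * a * (F * E) := by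
        module
  rw [h7, zero_add] at h8
  exact h8.symm

end

end Pool.Agent.W528.Odd
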