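import Mathlib
import Pool.Agent.W528.Odd.Frame

/-!
# The elements of minimal rank divide the dimension
-/

set_option linter.unusedSectionVars false

namespace Pool.Agent.W528.Odd

open Module

noncomputable section

variable {K : Type} [Field K] [CharZero K] {V : Type} [AddCommGroup V] [Module K V]
  [FiniteDimensional K V] {G : Type} [Group G] {r : Representation K G V}
variable {𝔥 : Submodule K (Module.End K V)} {X p : Module.End K V}

theorem trace_down {b y : Module.End K V} (hb : b ∈ AA 𝔥 (1 - p)) :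
    LinearMap.trace K V (b * y) = LinearMap.trace K V (b * (p * y * (1 - p))) := by
  have h1 : b * (p * y * (1 - p)) = (b * p) * y * (1 - p) := by noncomm_ring
  rw [h1, BB_right hb, LinearMap.trace_mul_comm K (b * y) (1 - p), ← mul_assoc, hb.2.1]

theorem AA_sq {a : Module.End K V} (ha : a ∈ AA 𝔥 p) : a ∈ sq 𝔥 :=
  Submodule.subset_span ⟨ha.1, AA_mul ha ha⟩

theorem AA_sandwich (hbr : ∀ X ∈ 𝔥, ∀ Y ∈ 𝔥, X * Y - Y * X ∈ 𝔥) {a x : Module.End K V}
    (ha : a ∈ AA 𝔥 p) (hx : x ∈ 𝔥) : a * x * a ∈ AA 𝔥 p := by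
  refine ⟨sq_mul_mem hbr ha.1 (AA_mul ha ha) hx, ?_, ?_⟩
  · rw [← mul_assoc, ← mul_assoc, ha.2.1]
  · rw [mul_assoc, ha.2.2, mul_zero]

variable (hS : Setup r 𝔥) (hX : X ∈ 𝔥) (hpX : p = X + (1 / 2 : K) • 1) (hpp : p * p = p)
  {N : Module.End K V} (hN : N ∈ 𝔥) (hN2 : N * N = 0) (hN0 : N ≠ 0) (hCN : ConjIrr r N)
  (hNO : ∀ e ∈ 𝔥, e * e = 0 → e ≠ 0 → NoOrthOf r 𝔥 e)

include hpp in
theorem idem_cases {W : Submodule K V} (hW : W = LinearMap.range p) (h : W = ⊥ ∨ W = ⊤) :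
    p = 0 ∨ p = 1 := by
  rcases h with h | h
  · left
    rw [← LinearMap.range_eq_bot, ← hW, h]
  · right
    refine LinearMap.ext fun v => ?_
    have hv : v ∈ W := by rw [h]; trivial
    rw [hW] at hv
    obtain ⟨w, rfl⟩ := hv
    rw [← Module.End.mul_apply, hpp]
    rfl

theorem nontriv (hN0 : N ≠ 0) : 0 < finrank K V := by
  by_contra h
  have h1 : finrank K V = 0 := by omega
  have h2 := finrank_zero_iff.1 h1
  exact hN0 (LinearMap.ext fun v => Subsingleton.elim _ _)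

include hS hX hpX hpp hN hN2 hN0 hCN hNO in
theorem AA_ne_bot : ∃ a ∈ AA 𝔥 p, a ≠ 0 := by
  by_contra hcon
  push Not at hcon
  have hdown : ∀ b ∈ AA 𝔥 (1 - p), b = 0 := by
    intro b hb
    refine hNO N hN hN2 hN0 b (AA_sq hb) fun g => ?_
    rw [trace_down hb, hcon _ (comp_up hS.br hX hpX hpp (hS.conj g N hN)), mul_zero, map_zero]
  have hcomm : ∀ y ∈ 𝔥, p * y = y * p := by
    intro y hy
    have h1 := hcon _ (comp_up hS.br hX hpX hpp hy)
    have h2 := hdown _ (comp_down hS.br hX hpX hpp hy)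
    have h3 : p * y - y * p = p * y * (1 - p) - (1 - p) * y * p := by noncomm_ring
    rw [h1, h2, sub_zero, sub_eq_zero] at h3
    exact h3
  have h1 := idem_cases hpp rfl (hCN (LinearMap.range p) (by
    rintro g _ ⟨v, rfl⟩
    refine ⟨(r g * N * r g⁻¹) v, ?_⟩
    rw [← Module.End.mul_apply, ← Module.End.mul_apply, hcomm _ (hS.conj g N hN)]))
  have hpos := nontriv hN0
  have htr : LinearMap.trace K V p = (1 / 2 : K) * (finrank K V : K) := by
    rw [hpX, map_add, hS.tr X hX, map_smul, LinearMap.trace_one, zero_add, smul_eq_mul]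
  have hne : (finrank K V : K) ≠ 0 := Nat.cast_ne_zero.2 hpos.ne'
  rcases h1 with h1 | h1
  · rw [h1, map_zero] at htr
    exact mul_ne_zero (by norm_num) hne htr.symm
  · rw [h1, LinearMap.trace_one] at htr
    have h2 : (1 / 2 : K) * (finrank K V : K) = 0 := by linear_combination htr
    exact mul_ne_zero (by norm_num) hne h2

/-- The element of minimal rank and its properties. -/
structure MinE (𝔥 : Submodule K (Module.End K V)) (p e : Module.End K V) : Prop where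
  mem : e ∈ AA 𝔥 p
  ne : e ≠ 0
  min : ∀ a ∈ AA 𝔥 p, a ≠ 0 → rk e ≤ rk a

variable {n : ℕ} {e : Module.End K V} {ee ff : Fin n → Module.End K V}

theorem A0_mul {P P' a x : Module.End K V} (hbr : ∀ X ∈ 𝔥, ∀ Y ∈ 𝔥, X * Y - Y * X ∈ 𝔥)
    (ha : a ∈ A0 𝔥 p P P') (hx : x ∈ 𝔥) : a * x * a ∈ A0 𝔥 p P P' := by
  refine ⟨AA_sandwich hbr ha.1 hx, ?_, ?_⟩
  · rw [← mul_assoc, ← mul_assoc, ha.2.1, zero_mul, zero_mul]
  · rw [mul_assoc, ha.2.2, mul_zero]

include hS hX hpX hpp hNO in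
/-- A maximal frame has no elements of Peirce degree zero. -/
theorem A0_eq_bot [IsAlgClosed K] (he : MinE 𝔥 p e) (hF : Fr 𝔥 p (rk e) n ee ff)
    (hmax : ∀ e' f' : Fin (n + 1) → Module.End K V, ¬ Fr 𝔥 p (rk e) (n + 1) e' f') :
    A0 𝔥 p ((∑ j, ee j) * (∑ j, ff j)) ((∑ j, ff j) * (∑ j, ee j)) = ⊥ := by
  by_contra hcon
  set P := (∑ j, ee j) * (∑ j, ff j) with hP
  set P' := (∑ j, ff j) * (∑ j, ee j) with hP'
  have hPr := hF.pr
  obtain ⟨a, ha, ha0, hmin⟩ := exists_min_rk (A0 𝔥 p P P') (by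
    obtain ⟨a, ha, ha0⟩ := (Submodule.ne_bot_iff _).1 hcon
    exact ⟨a, ha, ha0⟩)
  have hext : ∀ x ∈ 𝔥, ∃ c : K, a * x * a = c • a := fun x hx =>
    extremal _ ha ha0 hmin x (A0_mul hS.br ha hx)
  obtain ⟨g, hg⟩ : ∃ g, LinearMap.trace K V (a * (r g * e * r g⁻¹)) ≠ 0 := by
    by_contra h
    push Not at h
    exact ha0 (hNO e he.mem.1 (AA_mul he.mem he.mem) he.ne a (AA_sq ha.1) h)
  set e' := r g * e * r g⁻¹ with he'
  have he'h : e' ∈ 𝔥 := hS.conj g e he.mem.1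
  obtain ⟨c, hc⟩ := hext e' he'h
  have hc0 := c_ne_zero hc hg
  have hrk' : rk e' ≤ rk e := (rk_mul_left _ _).trans (rk_mul_right _ _)
  have hrk : rk a = rk e := by
    apply le_antisymm
    · have h1 : a = c⁻¹ • (a * e' * a) := by rw [hc, smul_smul, inv_mul_cancel₀ hc0, one_smul]
      have h2 : a = (c⁻¹ • a) * (e' * a) := by rw [smul_mul_assoc, ← mul_assoc]; exact h1
      calc rk a = rk ((c⁻¹ • a) * (e' * a)) := by rw [← h2]
        _ ≤ rk (e' * a) := rk_mul_right _ _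
        _ ≤ rk e' := rk_mul_left _ _
        _ ≤ rk e := hrk'
    · exact he.min a ha.1 ha0
  -- the partner
  have hb1 := comp_down hS.br hX hpX hpp he'h
  have hb2 := hPr.swap.zero_mem hS.br hb1
  rw [← hP, ← hP'] at hb2
  set b₀ := (1 - P') * ((1 - p) * e' * p) * (1 - P) with hb₀
  have haP : (1 - P) * a = a := by rw [sub_mul, one_mul, ha.2.1, sub_zero]
  have haP' : a * (1 - P') = a := by rw [mul_sub, mul_one, ha.2.2, sub_zero]
  have hPP : P * P = P := hPr.idem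
  have hPP' : P' * P' = P' := hPr.idem'
  have hab : a * b₀ * a = c • a := by
    have h1 : a * b₀ * a = (a * (1 - P')) * (1 - p) * e' * (p * ((1 - P) * a)) := by
      rw [hb₀]
      noncomm_ring
    rw [h1, haP, haP', AA_right ha.1, ha.1.2.1, hc]
  have hP'b : P' * b₀ = 0 := by
    have h1 : P' * b₀ = (P' - P' * P') * ((1 - p) * e' * p) * (1 - P) := by
      rw [hb₀]
      noncomm_ring
    rw [h1, hPP', sub_self, zero_mul, zero_mul]
  have hbP : b₀ * P = 0 := by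
    have h1 : b₀ * P = (1 - P') * ((1 - p) * e' * p) * (P - P * P) := by
      rw [hb₀]
      noncomm_ring
    rw [h1, hPP, sub_self, mul_zero]
  set b := (c⁻¹ * c⁻¹) • (b₀ * a * b₀) with hb
  have hbA : b ∈ AA 𝔥 (1 - p) := Submodule.smul_mem _ _ (AA_sandwich hS.br hb2 ha.1.1)
  have haba : a * b * a = a := by
    have h1 : a * b * a = (c⁻¹ * c⁻¹) • ((a * b₀ * a) * b₀ * a) := by
      rw [hb, mul_smul_comm, smul_mul_assoc]
      congr 1
    rw [h1, hab, smul_mul_assoc, smul_mul_assoc, hab, smul_smul, smul_smul]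
    have h2 : c⁻¹ * c⁻¹ * c * c = 1 := by field_simp
    rw [h2, one_smul]
  have hbab : b * a * b = b := by
    have h1 : b * a * b = (c⁻¹ * c⁻¹ * (c⁻¹ * c⁻¹)) • (b₀ * (a * b₀ * a) * b₀ * a * b₀) := by
      rw [hb, mul_smul_comm, smul_mul_assoc, smul_mul_assoc, smul_smul]
      congr 1
    rw [h1, hab, mul_smul_comm, smul_mul_assoc, smul_mul_assoc, smul_mul_assoc, smul_smul]
    have h2 : b₀ * a * b₀ * a * b₀ = c • (b₀ * a * b₀) := by
      have h3 : b₀ * a * b₀ * a * b₀ = b₀ * (a * b₀ * a) * b₀ := by noncomm_ring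
      rw [h3, hab, mul_smul_comm, smul_mul_assoc]
    rw [h2, smul_smul, hb]
    congr 1
    field_simp
  refine hmax _ _ (hF.cons ha.1 hbA haba hbab ha.2.1 ha.2.2 ?_ ?_ hrk)
  · have h1 : P' * (b₀ * a * b₀) = (P' * b₀) * (a * b₀) := by simp only [mul_assoc]
    rw [← hP', hb, mul_smul_comm, h1, hP'b, zero_mul, smul_zero]
  · rw [← hP, hb, smul_mul_assoc, mul_assoc, hbP, mul_zero, smul_zero]

end

end Pool.Agent.W528.Odd
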