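import Mathlib
import Pool.Agent.W528.Odd.Frame3
import Pool.Agent.W327.OT.Half
import Pool.Agent.W363.OT.Cart
import Pool.Agent.W806.OT.DIV
import Pool.Agent.W261.OT.NoOrth
import Pool.Agent.W261.OT.Comm
import Pool.Agent.W529.Ta.Transvection

/-!
# Lie algebras of symplectic operators with a square-zero element of rank prime to the dimension
-/

set_option linter.unusedSectionVars false
set_option linter.deprecated false

namespace Pool.Agent.W528.Odd

open Module Pool.Agent.H204R3.SP Pool.Agent.W529.Ta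

noncomputable section

variable {K : Type} [Field K] [CharZero K] {V : Type} [AddCommGroup V] [Module K V]
  [FiniteDimensional K V]

/-- The group of the invertible operators that normalise `𝔥`. -/
def Nz (𝔥 : Submodule K (Module.End K V)) : Subgroup (Module.End K V)ˣ where
  carrier := {g | (∀ x ∈ 𝔥, (g : Module.End K V) * x * ((g⁻¹ : (Module.End K V)ˣ) :
    Module.End K V) ∈ 𝔥) ∧ ∀ x ∈ 𝔥, ((g⁻¹ : (Module.End K V)ˣ) : Module.End K V) * x *
      (g : Module.End K V) ∈ 𝔥}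
  one_mem' := by
    constructor <;> intro x hx <;> simpa using hx
  mul_mem' := by
    rintro a b ⟨ha1, ha2⟩ ⟨hb1, hb2⟩
    constructor
    · intro x hx
      have h := ha1 _ (hb1 x hx)
      rw [mul_inv_rev, Units.val_mul, Units.val_mul]
      simpa only [mul_assoc] using h
    · intro x hx
      have h := hb2 _ (ha2 x hx)
      rw [mul_inv_rev, Units.val_mul, Units.val_mul]
      simpa only [mul_assoc] using h
  inv_mem' := by
    rintro a ⟨ha1, ha2⟩
    refine ⟨ha2, ?_⟩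
    intro x hx
    rw [inv_inv]
    exact ha1 x hx

/-- The representation of the normaliser. -/
def rN (𝔥 : Submodule K (Module.End K V)) : Representation K (Nz 𝔥) V :=
  (Units.coeHom (Module.End K V)).comp (Nz 𝔥).subtype

theorem rN_apply (𝔥 : Submodule K (Module.End K V)) (g : Nz 𝔥) :
    rN 𝔥 g = ((g : (Module.End K V)ˣ) : Module.End K V) := rfl

theorem rN_inv (𝔥 : Submodule K (Module.End K V)) (g : Nz 𝔥) :
    rN 𝔥 g⁻¹ = (((g : (Module.End K V)ˣ)⁻¹ : (Module.End K V)ˣ) : Module.End K V) := rfl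

variable {𝔥 : Submodule K (Module.End K V)} {Γ : Type} [Group Γ] (ρ : Representation K Γ V)

/-- The operator of a group element as a unit. -/
def un (g : Γ) : (Module.End K V)ˣ where
  val := ρ g
  inv := ρ g⁻¹
  val_inv := by rw [← map_mul, mul_inv_cancel, map_one]
  inv_val := by rw [← map_mul, inv_mul_cancel, map_one]

/-- The homomorphism to the normaliser. -/
def toN (hconj : ∀ s : Γ, ∀ X ∈ 𝔥, ρ s * X * ρ s⁻¹ ∈ 𝔥) : Γ →* Nz 𝔥 where
  toFun g := ⟨un ρ g, fun x hx => hconj g x hx, fun x hx => by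
    have h := hconj g⁻¹ x hx
    rw [inv_inv] at h
    exact h⟩
  map_one' := by
    apply Subtype.ext
    apply Units.ext
    exact map_one ρ
  map_mul' a b := by
    apply Subtype.ext
    apply Units.ext
    exact map_mul ρ a b

theorem fi_comap {A B : Type} [Group A] [Group B] (f : A →* B) (Δ : Subgroup B)
    (h : Δ.FiniteIndex) : (Δ.comap f).FiniteIndex := by
  refine ⟨?_⟩
  rw [Subgroup.index_comap]
  exact (inferInstance : (Δ.subgroupOf f.range).FiniteIndex).index_ne_zero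

theorem sIrr_rN (hirr : SIrr ρ) (hconj : ∀ s : Γ, ∀ X ∈ 𝔥, ρ s * X * ρ s⁻¹ ∈ 𝔥) :
    SIrr (rN 𝔥) := by
  intro Δ hΔ W hW
  refine hirr (Δ.comap (toN ρ hconj)) (fi_comap _ Δ hΔ) W ?_
  intro g hg u hu
  exact hW _ hg u hu

/-- The unit `1 + n`. -/
def un1 {n : Module.End K V} (hn : n * n = 0) : (Module.End K V)ˣ where
  val := 1 + n
  inv := 1 - n
  val_inv := by
    have : (1 + n) * (1 - n) = 1 - n * n := by noncomm_ring
    rw [this, hn, sub_zero]
  inv_val := by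
    have : (1 - n) * (1 + n) = 1 - n * n := by noncomm_ring
    rw [this, hn, sub_zero]

theorem trace_sp (ω : V →ₗ[K] V →ₗ[K] K) (hnd : ∀ u, (∀ v, ω u v = 0) → u = 0)
    {x : Module.End K V} (hx : ∀ a b, ω (x a) b + ω a (x b) = 0) : LinearMap.trace K V x = 0 := by
  have hinj : Function.Injective ω := by
    rw [injective_iff_map_eq_zero]
    intro u hu
    exact hnd u fun v => by rw [hu, LinearMap.zero_apply]
  let B : V ≃ₗ[K] Dual K V := LinearEquiv.ofInjectiveOfFinrankEq ω hinj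
    (Subspace.dual_finrank_eq).symm
  have hB : ∀ v, B v = ω v := fun v => rfl
  have h1 : x = -(B.symm.toLinearMap ∘ₗ (Module.Dual.transpose (R := K) x) ∘ₗ B.toLinearMap) := by
    refine LinearMap.ext fun v => ?_
    apply B.injective
    rw [LinearMap.neg_apply, map_neg]
    simp only [LinearMap.comp_apply, LinearEquiv.coe_coe, LinearEquiv.apply_symm_apply]
    refine LinearMap.ext fun w => ?_
    rw [LinearMap.neg_apply, hB, hB, Module.Dual.transpose_apply, LinearMap.comp_apply]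
    exact eq_neg_of_add_eq_zero_left (hx v w)
  have h2 : LinearMap.trace K V (B.symm.toLinearMap ∘ₗ (Module.Dual.transpose (R := K) x) ∘ₗ
      B.toLinearMap) = LinearMap.trace K V x := by
    have h3 := LinearMap.trace_conj' (Module.Dual.transpose (R := K) x) B.symm
    rw [LinearMap.trace_transpose'] at h3
    rw [← h3]
    rfl
  have h3 := congrArg (LinearMap.trace K V) h1
  rw [map_neg, h2] at h3
  have h4 : (2 : K) * LinearMap.trace K V x = 0 := by linear_combination h3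
  exact (mul_eq_zero.1 h4).resolve_left (by norm_num)

theorem setup_rN (hirr : SIrr ρ) (hbr : ∀ X ∈ 𝔥, ∀ Y ∈ 𝔥, X * Y - Y * X ∈ 𝔥)
    (hconj : ∀ s : Γ, ∀ X ∈ 𝔥, ρ s * X * ρ s⁻¹ ∈ 𝔥) (ω : V →ₗ[K] V →ₗ[K] K)
    (hnd : ∀ u, (∀ v, ω u v = 0) → u = 0)
    (hsp : ∀ X ∈ 𝔥, ∀ u w, ω (X u) w + ω u (X w) = 0) : Setup (rN 𝔥) 𝔥 where
  irr := sIrr_rN ρ hirr hconj
  br := hbr
  conj g X hX := g.2.1 X hX
  unip n hn hn2 := by
    refine ⟨⟨un1 hn2, fun x hx => ?_, fun x hx => ?_⟩, rfl⟩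
    · have h1 : (1 + n) * x * (1 - n) = x + (n * x - x * n) - n * x * n := by noncomm_ring
      change (1 + n) * x * (1 - n) ∈ 𝔥
      rw [h1]
      exact 𝔥.sub_mem (𝔥.add_mem hx (hbr _ hn _ hx)) (sq_mul_mem hbr hn hn2 hx)
    · have h1 : (1 - n) * x * (1 + n) = x - (n * x - x * n) - n * x * n := by noncomm_ring
      change (1 - n) * x * (1 + n) ∈ 𝔥
      rw [h1]
      exact 𝔥.sub_mem (𝔥.sub_mem hx (hbr _ hn _ hx)) (sq_mul_mem hbr hn hn2 hx)
  tr X hX := trace_sp ω hnd (hsp X hX)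

/-- There is an element of rank one. -/
theorem exists_rank_one [IsAlgClosed K] (hirr : SIrr ρ)
    (hbr : ∀ X ∈ 𝔥, ∀ Y ∈ 𝔥, X * Y - Y * X ∈ 𝔥)
    (hconj : ∀ s : Γ, ∀ X ∈ 𝔥, ρ s * X * ρ s⁻¹ ∈ 𝔥) (ω : V →ₗ[K] V →ₗ[K] K)
    (halt : ∀ v, ω v v = 0) (hnd : ∀ u, (∀ v, ω u v = 0) → u = 0)
    (hsp : ∀ X ∈ 𝔥, ∀ u w, ω (X u) w + ω u (X w) = 0) {N X : Module.End K V} (hN : N ∈ 𝔥)
    (hN2 : N * N = 0) (hcop : Nat.Coprime (rk N) (finrank K V)) (hX : X ∈ 𝔥)
    (hXX : X * X = (1 / 4 : K) • 1) (hdim : 2 ≤ finrank K V) : ∃ e ∈ 𝔥, rk e = 1 := by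
  have hS := setup_rN ρ hirr hbr hconj ω hnd hsp
  obtain ⟨p, hpX⟩ : ∃ p, p = X + (1 / 2 : K) • (1 : Module.End K V) := ⟨_, rfl⟩
  have hpp : p * p = p := by
    rw [hpX, mul_add, add_mul, add_mul, hXX, smul_mul_assoc, mul_smul_comm, mul_smul_comm, one_mul,
      mul_one, smul_mul_assoc, one_mul]
    module
  have hpos : 0 < finrank K V := by omega
  have htr : LinearMap.trace K V p = (1 / 2 : K) * (finrank K V : K) := by
    rw [hpX, map_add, hS.tr X hX, map_smul, LinearMap.trace_one, zero_add, smul_eq_mul]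
  have heven : finrank K V = 2 * rk p := by
    rw [trace_idem hpp] at htr
    have h1 : (finrank K V : K) = ((2 * rk p : ℕ) : K) := by
      push_cast
      linear_combination -2 * htr
    exact_mod_cast h1
  have hoddN : Odd (rk N) := by
    rw [← Nat.not_even_iff_odd]
    intro h
    have h1 : 2 ∣ Nat.gcd (rk N) (finrank K V) :=
      Nat.dvd_gcd h.two_dvd (by rw [heven]; exact dvd_mul_right _ _)
    rw [hcop] at h1
    omega
  have hN0 : N ≠ 0 := by
    rintro rfl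
    rw [rk_eq_zero.2 rfl] at hoddN
    exact absurd hoddN (by decide)
  have hCN : ConjIrr (rN 𝔥) N := Pool.Agent.W261.OT.Comm.main K V (Nz 𝔥) (rN 𝔥) hS.irr N hcop
  have hNO : ∀ e ∈ 𝔥, e * e = 0 → e ≠ 0 → NoOrthOf (rN 𝔥) 𝔥 e :=
    fun e he he2 he0 => Pool.Agent.W261.OT.NoOrth.main K V (Nz 𝔥) (rN 𝔥) 𝔥 hS
      (fun 𝔞 h𝔞 h1 h2 h3 => Pool.Agent.W363.OT.Cart.main K V (Nz 𝔥) (rN 𝔥) hS.irr 𝔞 h1 h2
        (fun x hx => hS.tr x (h𝔞 hx)) h3) N hN hN2 hCN e he he2 he0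
  obtain ⟨e, he, he0, hmin⟩ := exists_min_rk (AA 𝔥 p) (AA_ne_bot hS hX hpX hpp hN hN2 hN0 hCN hNO)
  have hE : MinE 𝔥 p e := ⟨he, he0, hmin⟩
  have hext : ∀ x ∈ 𝔥, ∃ c : K, e * x * e = c • e := fun x hx =>
    extremal _ he he0 hmin x (AA_sandwich hbr he hx)
  have hdvd : rk e ∣ rk N := Pool.Agent.W806.OT.DIV.main K V (Nz 𝔥) (rN 𝔥) 𝔥 hS e he.1
    (AA_mul he he) hext (hNO e he.1 (AA_mul he he) he0) N hN hN2
  have hodd : Odd (rk e) := Odd.of_dvd_nat hoddN hdvd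
  have hdvd2 := rk_dvd_dim hS hX hpX hpp hN hN0 hCN hNO Pool.Agent.W327.OT.Half.main ω halt hnd hsp
    hE hodd
  refine ⟨e, he.1, Nat.dvd_one.1 ?_⟩
  have h1 := Nat.dvd_gcd hdvd hdvd2
  rw [hcop] at h1
  exact h1

/-- A Lie algebra of symplectic operators, stable under a group all of whose subgroups of finite
index act irreducibly, which contains an element `X` with `X ^ 2 = 1 / 4` and a square-zero element
of rank prime to the dimension, is the symplectic Lie algebra. -/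
theorem odd_core [IsAlgClosed K] (χ : Γ →* K) (hirr : SIrr ρ)
    (hbr : ∀ X ∈ 𝔥, ∀ Y ∈ 𝔥, X * Y - Y * X ∈ 𝔥)
    (hconj : ∀ s : Γ, ∀ X ∈ 𝔥, ρ s * X * ρ s⁻¹ ∈ 𝔥) (ω : V →ₗ[K] V →ₗ[K] K)
    (halt : ∀ v, ω v v = 0) (hnd : ∀ u, (∀ v, ω v u = 0) → u = 0)
    (hωρ : ∀ s u v, ω (ρ s u) (ρ s v) = χ s * ω u v)
    (hsp : ∀ X ∈ 𝔥, ∀ u w, ω (X u) w + ω u (X w) = 0) {N X : Module.End K V} (hN : N ∈ 𝔥)
    (hN2 : N * N = 0) (hcop : Nat.Coprime (rk N) (finrank K V)) (hX : X ∈ 𝔥)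
    (hXX : X * X = (1 / 4 : K) • 1) (hdim : 2 ≤ finrank K V) : ∀ u v, SS ω u v ∈ 𝔥 := by
  have hanti := alt_anti halt
  have hnd' : ∀ u, (∀ v, ω u v = 0) → u = 0 := fun u hu => hnd u fun v => by
    rw [hanti, hu, neg_zero]
  obtain ⟨e, he, hr⟩ := exists_rank_one ρ hirr hbr hconj ω halt hnd' hsp hN hN2 hcop hX hXX hdim
  obtain ⟨⟨d, hd⟩, hd0, hspan⟩ := finrank_eq_one_iff'.1 hr
  have hd0' : d ≠ 0 := fun h => hd0 (Subtype.ext h)
  have hev : ∀ v, ∃ c : K, e v = c • d := by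
    intro v
    obtain ⟨c, hc⟩ := hspan ⟨e v, v, rfl⟩
    exact ⟨c, (congrArg Subtype.val hc).symm⟩
  choose φ hφ using hev
  obtain ⟨w, hw⟩ : ∃ w, ω d w ≠ 0 := by
    by_contra h
    push Not at h
    exact hd0' (hnd' d h)
  have h1 : ∀ v, φ v * ω d w = φ w * ω d v := by
    intro v
    have h2 := hsp e he v w
    rw [hφ, hφ, map_smul, map_smul, LinearMap.smul_apply, smul_eq_mul, smul_eq_mul,
      hanti v d] at h2
    linear_combination h2
  have hφw : φ w ≠ 0 := by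
    intro h
    obtain ⟨v, hv⟩ := hd
    have h2 := h1 v
    rw [h, zero_mul] at h2
    have h3 := (mul_eq_zero.1 h2).resolve_right hw
    have h4 := hφ v
    rw [h3, zero_smul, hv] at h4
    exact hd0' h4
  have heq : SS ω d d = (2 * ω d w / φ w) • e := by
    refine LinearMap.ext fun v => ?_
    rw [SS_apply, LinearMap.smul_apply, hφ, ← add_smul, smul_smul]
    congr 1
    field_simp
    linear_combination -2 * h1 v
  have hmem : SS ω d d ∈ 𝔥 := by
    rw [heq]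
    exact 𝔥.smul_mem _ he
  have hconj' : ∀ (s : Γ) (a b : V), SS ω a b ∈ 𝔥 → SS ω (ρ s a) (ρ s b) ∈ 𝔥 := by
    intro s a b h
    rw [SS_rho ρ χ ω hωρ]
    exact Submodule.smul_mem _ _ (hconj s _ h)
  exact SS_all ρ ω 𝔥 halt hnd hbr hconj' hirr hd0' hmem

end

end Pool.Agent.W528.Odd
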