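import Mathlib
import Pool.Agent.W528.Odd.Core
import Pool.Agent.W125.OT.EvenRk
import Pool.Agent.W925.OT.Split
import Pool.Agent.W125.OT.SIrrT
import Pool.Agent.W540.OT.XDich

/-!
# Simplicity
-/

set_option linter.unusedSectionVars false

namespace Pool.Agent.W528.Odd

open Module

noncomputable section

variable {K : Type} [Field K] [CharZero K] {V : Type} [AddCommGroup V] [Module K V]
  [FiniteDimensional K V]

/-- A Lie algebra of symplectic operators spanned by square-zero elements and elements `X` with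
`X ^ 2 = 1 / 4`, where the latter act irreducibly. -/
structure QP (ω : V →ₗ[K] V →ₗ[K] K) (𝔮 : Submodule K (Module.End K V)) : Prop where
  br : ∀ X ∈ 𝔮, ∀ Y ∈ 𝔮, X * Y - Y * X ∈ 𝔮
  sp : ∀ y ∈ 𝔮, ∀ a b, ω (y a) b + ω a (y b) = 0
  gen : 𝔮 ≤ Submodule.span K ({n | n ∈ 𝔮 ∧ n * n = 0} ∪ {X | X ∈ 𝔮 ∧ X * X = (1 / 4 : K) • 1})
  irr : ∀ W : Submodule K V, (∀ X ∈ 𝔮, X * X = (1 / 4 : K) • 1 → ∀ u ∈ W, X u ∈ W) →
    W = ⊥ ∨ W = ⊤

theorem idem_of {X : Module.End K V} (hX : X * X = (1 / 4 : K) • 1) :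
    (X + (1 / 2 : K) • 1) * (X + (1 / 2 : K) • 1) = X + (1 / 2 : K) • (1 : Module.End K V) := by
  rw [mul_add, add_mul, add_mul, hX, smul_mul_assoc, mul_smul_comm, mul_smul_comm, one_mul,
    mul_one, smul_mul_assoc, one_mul]
  module

theorem comp_mem {𝔨 : Submodule K (Module.End K V)} {X p : Module.End K V}
    (hpX : p = X + (1 / 2 : K) • 1) (hpp : p * p = p) (hid : ∀ y ∈ 𝔨, X * y - y * X ∈ 𝔨)
    {y : Module.End K V} (hy : y ∈ 𝔨) : p * y * (1 - p) ∈ 𝔨 ∧ (1 - p) * y * p ∈ 𝔨 := by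
  have h1 : p * y - y * p ∈ 𝔨 := by rw [← p_br hpX]; exact hid _ hy
  have h2 : p * (p * y - y * p) - (p * y - y * p) * p ∈ 𝔨 := by
    rw [← p_br hpX]
    exact hid _ h1
  constructor
  · have h3 : p * y * (1 - p) =
        (1 / 2 : K) • ((p * y - y * p) + (p * (p * y - y * p) - (p * y - y * p) * p)) := by
      have h4 : (p * y - y * p) + (p * (p * y - y * p) - (p * y - y * p) * p) =
          p * y - y * p + ((p * p) * y - p * y * p - p * y * p + y * (p * p)) := by noncomm_ring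
      rw [h4, hpp, mul_sub, mul_one]
      module
    rw [h3]
    exact 𝔨.smul_mem _ (𝔨.add_mem h1 h2)
  · have h3 : (1 - p) * y * p =
        (1 / 2 : K) • ((p * (p * y - y * p) - (p * y - y * p) * p) - (p * y - y * p)) := by
      have h4 : (p * (p * y - y * p) - (p * y - y * p) * p) - (p * y - y * p) =
          ((p * p) * y - p * y * p - p * y * p + y * (p * p)) - (p * y - y * p) := by noncomm_ring
      rw [h4, hpp, sub_mul, one_mul, sub_mul]
      module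
    rw [h3]
    exact 𝔨.smul_mem _ (𝔨.sub_mem h2 h1)

theorem unX_aux {X : Module.End K V} (hX : X * X = (1 / 4 : K) • 1) :
    ((3 / 2 : K) • 1 + X) * ((3 / 4 : K) • 1 - (1 / 2 : K) • X) = 1 := by
  have h : ((3 / 2 : K) • 1 + X) * ((3 / 4 : K) • 1 - (1 / 2 : K) • X) =
      (9 / 8 : K) • 1 - (1 / 2 : K) • (X * X) := by
    rw [mul_sub, add_mul, add_mul, smul_mul_assoc, smul_mul_assoc, one_mul, one_mul,
      mul_smul_comm, mul_smul_comm, mul_one]
    module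
  rw [h, hX]
  module

theorem unX_aux' {X : Module.End K V} (hX : X * X = (1 / 4 : K) • 1) :
    ((3 / 4 : K) • 1 - (1 / 2 : K) • X) * ((3 / 2 : K) • 1 + X) = 1 := by
  have h : ((3 / 4 : K) • 1 - (1 / 2 : K) • X) * ((3 / 2 : K) • 1 + X) =
      (9 / 8 : K) • 1 - (1 / 2 : K) • (X * X) := by
    rw [mul_add, sub_mul, sub_mul, smul_mul_assoc, smul_mul_assoc, one_mul, smul_mul_assoc,
      one_mul, mul_smul_comm, mul_one, smul_mul_assoc]
    module
  rw [h, hX]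
  module

/-- The unit `3 / 2 + X`. -/
def unX {X : Module.End K V} (hX : X * X = (1 / 4 : K) • 1) : (Module.End K V)ˣ where
  val := (3 / 2 : K) • 1 + X
  inv := (3 / 4 : K) • 1 - (1 / 2 : K) • X
  val_inv := unX_aux hX
  inv_val := unX_aux' hX

theorem unX_mem {𝔨 : Submodule K (Module.End K V)} {X : Module.End K V}
    (hX : X * X = (1 / 4 : K) • 1) (hid : ∀ y ∈ 𝔨, X * y - y * X ∈ 𝔨) : unX hX ∈ Nz 𝔨 := by
  obtain ⟨p, hpX⟩ : ∃ p, p = X + (1 / 2 : K) • (1 : Module.End K V) := ⟨_, rfl⟩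
  have hpp : p * p = p := by rw [hpX]; exact idem_of hX
  have hv : ((unX hX : (Module.End K V)ˣ) : Module.End K V) = 1 + p := by
    change (3 / 2 : K) • 1 + X = 1 + p
    rw [hpX]
    module
  have hi : (((unX hX)⁻¹ : (Module.End K V)ˣ) : Module.End K V) = 1 - (1 / 2 : K) • p := by
    change (3 / 4 : K) • 1 - (1 / 2 : K) • X = 1 - (1 / 2 : K) • p
    rw [hpX]
    module
  refine ⟨fun y hy => ?_, fun y hy => ?_⟩
  · obtain ⟨h1, h2⟩ := comp_mem hpX hpp hid hy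
    rw [hv, hi]
    have h3 : (1 + p) * y * (1 - (1 / 2 : K) • p) =
        y + p * y * (1 - p) - (1 / 2 : K) • ((1 - p) * y * p) := by
      rw [mul_sub, mul_one, mul_smul_comm]
      have h4 : (1 - p) * y * p = y * p - p * y * p := by noncomm_ring
      have h5 : p * y * (1 - p) = p * y - p * y * p := by noncomm_ring
      have h6 : (1 + p) * y = y + p * y := by noncomm_ring
      rw [h4, h5, h6, add_mul]
      module
    rw [h3]
    exact 𝔨.sub_mem (𝔨.add_mem hy h1) (𝔨.smul_mem _ h2)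
  · obtain ⟨h1, h2⟩ := comp_mem hpX hpp hid hy
    rw [hv, hi]
    have h3 : (1 - (1 / 2 : K) • p) * y * (1 + p) =
        y - (1 / 2 : K) • (p * y * (1 - p)) + (1 - p) * y * p := by
      have h4 : (1 - p) * y * p = y * p - p * y * p := by noncomm_ring
      have h5 : p * y * (1 - p) = p * y - p * y * p := by noncomm_ring
      rw [mul_add, mul_one, sub_mul, one_mul, smul_mul_assoc, sub_mul, smul_mul_assoc, h4, h5]
      module
    rw [h3]
    exact 𝔨.add_mem (𝔨.sub_mem hy (𝔨.smul_mem _ h1)) h2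

/-- The normaliser of two spaces. -/
def rN2 (𝔮 𝔨 : Submodule K (Module.End K V)) :
    Representation K (Nz 𝔮 ⊓ Nz 𝔨 : Subgroup (Module.End K V)ˣ) V :=
  (Units.coeHom (Module.End K V)).comp (Nz 𝔮 ⊓ Nz 𝔨 : Subgroup (Module.End K V)ˣ).subtype

variable {ω : V →ₗ[K] V →ₗ[K] K} {𝔮 : Submodule K (Module.End K V)}

theorem sIrr_rN2 (hQ : QP ω 𝔮) {𝔨 : Submodule K (Module.End K V)}
    (hid : ∀ x ∈ 𝔮, ∀ y ∈ 𝔨, x * y - y * x ∈ 𝔨) : SIrr (rN2 𝔮 𝔨) := by
  refine Pool.Agent.W125.OT.SIrrT.main K V _ (rN2 𝔮 𝔨) 𝔮 ?_ hQ.irr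
  intro X hX hXX
  exact ⟨⟨unX hXX, unX_mem hXX (fun y hy => hQ.br X hX y hy),
    unX_mem hXX (fun y hy => hid X hX y hy)⟩, rfl⟩

/-- The orthogonal of `𝔨` in `𝔮`. -/
def orth (𝔮 𝔨 : Submodule K (Module.End K V)) : Submodule K (Module.End K V) where
  carrier := {y | y ∈ 𝔮 ∧ ∀ z ∈ 𝔨, LinearMap.trace K V (y * z) = 0}
  add_mem' := by
    rintro a b ⟨h1, h2⟩ ⟨h3, h4⟩
    exact ⟨𝔮.add_mem h1 h3, fun z hz => by rw [add_mul, map_add, h2 z hz, h4 z hz, add_zero]⟩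
  zero_mem' := ⟨𝔮.zero_mem, fun z _ => by rw [zero_mul, map_zero]⟩
  smul_mem' := by
    rintro c a ⟨h1, h2⟩
    exact ⟨𝔮.smul_mem _ h1, fun z hz => by rw [smul_mul_assoc, map_smul, h2 z hz, smul_zero]⟩

theorem trace_br (x y z : Module.End K V) : LinearMap.trace K V ((x * y - y * x) * z) =
    LinearMap.trace K V (x * (y * z - z * y)) := by
  have h1 : (x * y - y * x) * z = x * (y * z) - y * (x * z) := by noncomm_ring
  have h2 : x * (y * z - z * y) = x * (y * z) - (x * z) * y := by noncomm_ring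
  rw [h1, h2, map_sub, map_sub, LinearMap.trace_mul_comm K y (x * z)]

theorem orth_ideal (hQ : QP ω 𝔮) {𝔨 : Submodule K (Module.End K V)}
    (hid : ∀ x ∈ 𝔮, ∀ y ∈ 𝔨, x * y - y * x ∈ 𝔨) :
    ∀ x ∈ 𝔮, ∀ y ∈ orth 𝔮 𝔨, x * y - y * x ∈ orth 𝔮 𝔨 := by
  rintro x hx y ⟨hy, hyz⟩
  refine ⟨hQ.br x hx y hy, fun z hz => ?_⟩
  have h1 : x * y - y * x = -(y * x - x * y) := by abel
  rw [h1, neg_mul, map_neg, trace_br, hyz _ (hid x hx z hz), neg_zero]

theorem inf_orth [IsAlgClosed K] (hnd : ∀ u, (∀ v, ω u v = 0) → u = 0) (hQ : QP ω 𝔮)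
    {𝔨 : Submodule K (Module.End K V)} (hk : 𝔨 ≤ 𝔮)
    (hid : ∀ x ∈ 𝔮, ∀ y ∈ 𝔨, x * y - y * x ∈ 𝔨) : 𝔨 ⊓ orth 𝔮 𝔨 = ⊥ := by
  refine Pool.Agent.W363.OT.Cart.main K V _ (rN2 𝔮 𝔨) (sIrr_rN2 hQ hid) _ ?_ ?_ ?_ ?_
  · rintro x ⟨hx, -⟩ y ⟨hy, hy'⟩
    exact ⟨hid x (hk hx) y hy, orth_ideal hQ hid x (hk hx) y hy'⟩
  · rintro g x ⟨hx, hx1, hx2⟩
    refine ⟨g.2.2.1 x hx, g.2.1.1 x hx1, fun z hz => ?_⟩
    have h1 := hx2 _ (g.2.2.2 z hz)
    have h2 : LinearMap.trace K V (rN2 𝔮 𝔨 g * x * rN2 𝔮 𝔨 g⁻¹ * z) =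
        LinearMap.trace K V (x * (rN2 𝔮 𝔨 g⁻¹ * z * rN2 𝔮 𝔨 g)) := by
      have h3 : rN2 𝔮 𝔨 g * x * rN2 𝔮 𝔨 g⁻¹ * z = rN2 𝔮 𝔨 g * (x * (rN2 𝔮 𝔨 g⁻¹ * z)) := by
        simp only [mul_assoc]
      rw [h3, LinearMap.trace_mul_comm]
      simp only [mul_assoc]
    exact h2.trans h1
  · rintro x ⟨hx, -⟩
    exact trace_sp ω hnd (hQ.sp x (hk hx))
  · rintro x ⟨hx, -⟩ y ⟨-, -, hy⟩
    rw [LinearMap.trace_mul_comm]
    exact hy x hx

theorem sup_orth (hQ : QP ω 𝔮) {𝔨 : Submodule K (Module.End K V)} (hk : 𝔨 ≤ 𝔮)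
    (hinf : 𝔨 ⊓ orth 𝔮 𝔨 = ⊥) : 𝔨 ⊔ orth 𝔮 𝔨 = 𝔮 := by
  apply le_antisymm
  · exact sup_le hk (fun x hx => hx.1)
  · intro y hy
    let B : 𝔨 →ₗ[K] Dual K 𝔨 :=
      { toFun := fun x =>
          { toFun := fun z => LinearMap.trace K V ((x : Module.End K V) * z)
            map_add' := fun a b => by rw [Submodule.coe_add, mul_add, map_add]
            map_smul' := fun c a => by
              rw [Submodule.coe_smul, mul_smul_comm, map_smul, RingHom.id_apply] }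
        map_add' := fun a b => by
          refine LinearMap.ext fun z => ?_
          change LinearMap.trace K V (((a + b : 𝔨) : Module.End K V) * z) = _
          rw [Submodule.coe_add, add_mul, map_add]
          rfl
        map_smul' := fun c a => by
          refine LinearMap.ext fun z => ?_
          change LinearMap.trace K V (((c • a : 𝔨) : Module.End K V) * z) = _
          rw [Submodule.coe_smul, smul_mul_assoc, map_smul]
          rfl }
    have hinj : Function.Injective B := by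
      rw [injective_iff_map_eq_zero]
      intro x hx
      have h1 : (x : Module.End K V) ∈ 𝔨 ⊓ orth 𝔮 𝔨 := by
        refine ⟨x.2, hk x.2, fun z hz => ?_⟩
        exact congrArg (fun f : Dual K 𝔨 => f ⟨z, hz⟩) hx
      rw [hinf, Submodule.mem_bot] at h1
      exact Subtype.ext h1
    have hsurj : Function.Surjective B :=
      (LinearMap.injective_iff_surjective_of_finrank_eq_finrank
        (Subspace.dual_finrank_eq (K := K) (V := 𝔨)).symm).1 hinj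
    obtain ⟨x, hx⟩ := hsurj
      { toFun := fun z => LinearMap.trace K V (y * z)
        map_add' := fun a b => by rw [Submodule.coe_add, mul_add, map_add]
        map_smul' := fun c a => by
          rw [Submodule.coe_smul, mul_smul_comm, map_smul, RingHom.id_apply] }
    have h1 : y - x ∈ orth 𝔮 𝔨 := by
      refine ⟨𝔮.sub_mem hy (hk x.2), fun z hz => ?_⟩
      have h2 : LinearMap.trace K V ((x : Module.End K V) * z) = LinearMap.trace K V (y * z) :=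
        congrArg (fun f : Dual K 𝔨 => f ⟨z, hz⟩) hx
      rw [sub_mul, map_sub, h2, sub_self]
    have h2 : y = x + (y - x) := by abel
    rw [h2]
    exact Submodule.add_mem_sup x.2 h1

theorem eq_zero_of_comm [IsAlgClosed K] (hnd : ∀ u, (∀ v, ω u v = 0) → u = 0) (hQ : QP ω 𝔮)
    {y : Module.End K V} (hy : y ∈ 𝔮)
    (h : ∀ X ∈ 𝔮, X * X = (1 / 4 : K) • 1 → X * y = y * X) : y = 0 := by
  rcases subsingleton_or_nontrivial V with hV | hV
  · exact LinearMap.ext fun v => Subsingleton.elim _ _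
  obtain ⟨c, hc⟩ := Module.End.exists_eigenvalue y
  have h1 := hQ.irr (Module.End.eigenspace y c) (by
    intro X hX hXX u hu
    rw [Module.End.mem_eigenspace_iff] at hu ⊢
    rw [← Module.End.mul_apply, ← h X hX hXX, Module.End.mul_apply, hu, map_smul])
  rcases h1 with h1 | h1
  · exact absurd h1 hc
  · have h2 : y = c • 1 := by
      refine LinearMap.ext fun v => ?_
      have h3 : v ∈ Module.End.eigenspace y c := by rw [h1]; trivial
      exact Module.End.mem_eigenspace_iff.1 h3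
    have h3 := trace_sp ω hnd (hQ.sp y hy)
    rw [h2, map_smul, LinearMap.trace_one, smul_eq_mul] at h3
    have h4 : (finrank K V : K) ≠ 0 := Nat.cast_ne_zero.2 (finrank_pos).ne'
    rw [h2, (mul_eq_zero.1 h3).resolve_right h4, zero_smul]

theorem comm_orth (hQ : QP ω 𝔮) {𝔨 : Submodule K (Module.End K V)} (hk : 𝔨 ≤ 𝔮)
    (hid : ∀ x ∈ 𝔮, ∀ y ∈ 𝔨, x * y - y * x ∈ 𝔨) (hinf : 𝔨 ⊓ orth 𝔮 𝔨 = ⊥) :
    ∀ x ∈ 𝔨, ∀ y ∈ orth 𝔮 𝔨, x * y = y * x := by
  intro x hx y hy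
  have h1 : x * y - y * x ∈ 𝔨 ⊓ orth 𝔮 𝔨 := by
    refine ⟨?_, orth_ideal hQ hid x (hk hx) y hy⟩
    have h2 := hid y hy.1 x hx
    have h3 : x * y - y * x = -(y * x - x * y) := by abel
    rw [h3]
    exact 𝔨.neg_mem h2
  rw [hinf, Submodule.mem_bot, sub_eq_zero] at h1
  exact h1

/-- The Lie algebra is simple if it contains a square-zero element of odd rank. -/
theorem simple [IsAlgClosed K] (halt : ∀ v, ω v v = 0) (hnd : ∀ u, (∀ v, ω u v = 0) → u = 0)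
    (hQ : QP ω 𝔮) {N : Module.End K V} (hN : N ∈ 𝔮) (hN2 : N * N = 0) (hodd : Odd (rk N))
    {𝔨 : Submodule K (Module.End K V)} (hk : 𝔨 ≤ 𝔮)
    (hid : ∀ x ∈ 𝔮, ∀ y ∈ 𝔨, x * y - y * x ∈ 𝔨) : 𝔨 = ⊥ ∨ 𝔨 = 𝔮 := by
  have hinf := inf_orth hnd hQ hk hid
  have hsup := sup_orth hQ hk hinf
  by_cases h0 : orth 𝔮 𝔨 = ⊥
  · right
    rw [← hsup, h0, sup_bot_eq]
  by_cases h1 : 𝔨 = ⊥
  · exact Or.inl h1
  exfalso
  have hcomm := comm_orth hQ hk hid hinf
  have hrad : ∀ y ∈ 𝔮, (∀ z ∈ 𝔮, LinearMap.trace K V (y * z) = 0) → y = 0 := by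
    intro y hy hyz
    have h2 : y ∈ 𝔮 ⊓ orth 𝔮 𝔮 := ⟨hy, hy, hyz⟩
    rw [inf_orth hnd hQ le_rfl hQ.br, Submodule.mem_bot] at h2
    exact h2
  obtain ⟨hs1, hs2⟩ := Pool.Agent.W925.OT.Split.main K V 𝔨 (orth 𝔮 𝔨) hcomm
    (fun x hx => trace_sp ω hnd (hQ.sp x (hk hx))) (by
      intro W hW1 hW2
      refine hQ.irr W fun X hX _ u hu => ?_
      rw [← hsup] at hX
      obtain ⟨a, ha, b, hb, rfl⟩ := Submodule.mem_sup.1 hX
      exact W.add_mem (hW1 a ha u hu) (hW2 b hb u hu))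
  have hd : ∀ X ∈ 𝔮, X * X = (1 / 4 : K) • 1 →
      (∀ y ∈ 𝔨, X * y = y * X) ∨ (∀ y ∈ orth 𝔮 𝔨, X * y = y * X) :=
    Pool.Agent.W540.OT.XDich.main K V 𝔮 𝔨 (orth 𝔮 𝔨) hsup hid (orth_ideal hQ hid) hs1
      (fun x hx y hy => by rw [LinearMap.trace_mul_comm]; exact hy.2 x hx) hrad
  -- an element `X` that commutes with `𝔨` and one that commutes with its orthogonal
  obtain ⟨X₁, hX₁, hXX₁, hc₁⟩ : ∃ X ∈ 𝔮, X * X = (1 / 4 : K) • 1 ∧ ∀ y ∈ 𝔨, X * y = y * X := by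
    by_contra hcon
    push Not at hcon
    apply h0
    rw [eq_bot_iff]
    intro y hy
    rw [Submodule.mem_bot]
    refine eq_zero_of_comm hnd hQ hy.1 fun X hX hXX => ?_
    rcases hd X hX hXX with h2 | h2
    · obtain ⟨z, hz, hne⟩ := hcon X hX hXX
      exact absurd (h2 z hz) hne
    · exact h2 y hy
  obtain ⟨X₂, hX₂, hXX₂, hc₂⟩ : ∃ X ∈ 𝔮, X * X = (1 / 4 : K) • 1 ∧
      ∀ y ∈ orth 𝔮 𝔨, X * y = y * X := by
    by_contra hcon
    push Not at hcon
    apply h1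
    rw [eq_bot_iff]
    intro y hy
    rw [Submodule.mem_bot]
    refine eq_zero_of_comm hnd hQ (hk hy) fun X hX hXX => ?_
    rcases hd X hX hXX with h2 | h2
    · exact h2 y hy
    · obtain ⟨z, hz, hne⟩ := hcon X hX hXX
      exact absurd (h2 z hz) hne
  have hNs := hN
  rw [← hsup] at hNs
  obtain ⟨a, ha, b, hb, hab⟩ := Submodule.mem_sup.1 hNs
  rw [← hab] at hN2
  rw [← Nat.not_even_iff_odd] at hodd
  apply hodd
  rcases hs2 a ha b hb hN2 with h2 | h2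
  · rw [h2, zero_add] at hab
    rw [hab] at hb
    exact Pool.Agent.W125.OT.EvenRk.main K V ω halt hnd N X₂ (hQ.sp N hN) (hQ.sp X₂ hX₂) hXX₂
      (hc₂ N hb)
  · rw [h2, add_zero] at hab
    rw [hab] at ha
    exact Pool.Agent.W125.OT.EvenRk.main K V ω halt hnd N X₁ (hQ.sp N hN) (hQ.sp X₁ hX₁) hXX₁
      (hc₁ N ha)

end

end Pool.Agent.W528.Odd
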