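import Mathlib
import Pool.Agent.W528.Odd.Final1
import Pool.Agent.W528.Odd.Core2
import Pool.Agent.W528.Odd.Clifford
import Pool.Agent.W72.OT.Bound

/-!
# Odd toric rank
-/

set_option linter.unusedSectionVars false
set_option linter.deprecated false

namespace Pool.Agent.W528.Odd

open Module Pool.Agent.H204R3.SP Pool.Agent.H204R3.GP Pool.Agent.W522.U Pool.Agent.W529.Ta
open Pool.Agent.W528.Tor (AltDual)

noncomputable section

section

variable {K : Type} [Field K] [CharZero K] {V : Type} [AddCommGroup V] [Module K V]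
  [FiniteDimensional K V] {𝔥 : Submodule K (Module.End K V)} {Γ : Type} [Group Γ]
  (ρ : Representation K Γ V)

theorem all_of_rank_one (χ : Γ →* K) (hirr : SIrr ρ)
    (hbr : ∀ X ∈ 𝔥, ∀ Y ∈ 𝔥, X * Y - Y * X ∈ 𝔥)
    (hconj : ∀ s : Γ, ∀ X ∈ 𝔥, ρ s * X * ρ s⁻¹ ∈ 𝔥) (ω : V →ₗ[K] V →ₗ[K] K)
    (halt : ∀ v, ω v v = 0) (hnd : ∀ u, (∀ v, ω v u = 0) → u = 0)
    (hωρ : ∀ s u v, ω (ρ s u) (ρ s v) = χ s * ω u v)
    (hsp : ∀ X ∈ 𝔥, ∀ u w, ω (X u) w + ω u (X w) = 0) {e : Module.End K V} (he : e ∈ 𝔥)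
    (hr : rk e = 1) : ∀ u v, SS ω u v ∈ 𝔥 := by
  have hanti := alt_anti halt
  have hnd' : ∀ u, (∀ v, ω u v = 0) → u = 0 := fun u hu => hnd u fun v => by
    rw [hanti, hu, neg_zero]
  obtain ⟨⟨d, hd⟩, hd0, hspan⟩ := finrank_eq_one_iff'.1 hr
  have hd0' : d ≠ 0 := fun h => hd0 (Subtype.ext h)
  have hev : ∀ v, ∃ c : K, e v = c • d := by
    intro v
    obtain ⟨c, hc⟩ := hspan ⟨e v, v, rfl⟩
    exact ⟨c, (congrArg Subtype.val hc).symm⟩
  choose φ hφ using hev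
  obtain ⟨w, hw⟩ : ∃ w, ω d w ≠ 0 := by
    by_contra h
    push Not at h
    exact hd0' (hnd' d h)
  have h1 : ∀ v, φ v * ω d w = φ w * ω d v := by
    intro v
    have h2 := hsp e he v w
    rw [hφ, hφ, map_smul, map_smul, LinearMap.smul_apply, smul_eq_mul, smul_eq_mul,
      hanti v d] at h2
    linear_combination h2
  have hφw : φ w ≠ 0 := by
    intro h
    obtain ⟨v, hv⟩ := hd
    have h2 := h1 v
    rw [h, zero_mul] at h2
    have h3 := (mul_eq_zero.1 h2).resolve_right hw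
    have h4 := hφ v
    rw [h3, zero_smul, hv] at h4
    exact hd0' h4
  have heq : SS ω d d = (2 * ω d w / φ w) • e := by
    refine LinearMap.ext fun v => ?_
    rw [SS_apply, LinearMap.smul_apply, hφ, ← add_smul, smul_smul]
    congr 1
    field_simp
    linear_combination -2 * h1 v
  have hmem : SS ω d d ∈ 𝔥 := by
    rw [heq]
    exact 𝔥.smul_mem _ he
  have hconj' : ∀ (s : Γ) (a b : V), SS ω a b ∈ 𝔥 → SS ω (ρ s a) (ρ s b) ∈ 𝔥 := by
    intro s a b h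
    rw [SS_rho ρ χ ω hωρ]
    exact Submodule.smul_mem _ _ (hconj s _ h)
  exact SS_all ρ ω 𝔥 halt hnd hbr hconj' hirr hd0' hmem

end

variable {K : Type} [Field K] [CharZero K] {X : Type} [AddCommGroup X] [Module K X]
  [FiniteDimensional K X] {Γ : Type} [Group Γ] {R : Representation K Γ X} {χ : Γ →* K}

/-- The operators that commute with all weak Hodge elements commute with a subgroup of finite
index. -/
def WeakHodgeGenerate (R : Representation K Γ X) (χ : Γ →* K) : Prop :=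
  ∀ P : Module.End K X, (∀ x ∈ lieT R χ, x * x = (1 / 4 : K) • 1 → P * x = x * P) →
    ∃ Δ : Subgroup Γ, Δ.FiniteIndex ∧ ∀ g ∈ Δ, P * R g = R g * P

theorem irr_weak (ω : X →ₗ[K] X →ₗ[K] K) (hnd : ∀ u, (∀ v, ω u v = 0) → u = 0)
    (hωR : ∀ g u v, ω (R g u) (R g v) = χ g * ω u v) (hss : HasProj R)
    (hP : WeakHodgeGenerate R χ) {U : Submodule K X} (hU : SI R U) (Δ : Subgroup Γ)
    (hΔ : Δ.FiniteIndex) (hUΔ : ∀ g ∈ Δ, ∀ u ∈ U, R g u ∈ U) (W : Submodule K U)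
    (hW : ∀ Y : Module.End K U, (∃ x₀ ∈ lieT R χ, x₀ * x₀ = (1 / 4 : K) • 1 ∧
      ∀ u : U, ((Y u : U) : X) = x₀ u) → ∀ u ∈ W, Y u ∈ W) : W = ⊥ ∨ W = ⊤ := by
  obtain ⟨q, hq1, hq2, hq3⟩ := hss Δ hΔ U hUΔ
  have hqc : ∀ x₀ ∈ lieT R χ, ∀ v, x₀ (q v) = q (x₀ v) := fun x₀ hx₀ v =>
    Pool.Agent.W839.OT.HTFam.comm R χ ω hnd hωR Δ hΔ q hq3 x₀ hx₀ v
  let S : Set (Module.End K U) := {Y | ∃ x₀ ∈ lieT R χ, x₀ * x₀ = (1 / 4 : K) • 1 ∧
      ∀ u : U, ((Y u : U) : X) = x₀ u}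
  have hS : ∀ g : Δ, ∀ x ∈ S, resR R Δ U hUΔ g * x * resR R Δ U hUΔ g⁻¹ ∈ S := by
    rintro g Y ⟨x₀, hx₀, hxx, hYx⟩
    refine ⟨R g.1 * x₀ * R g.1⁻¹, lieT_conj R χ g.1 hx₀, ?_, fun u => ?_⟩
    · have h1 : R g.1⁻¹ * R g.1 = 1 := by rw [← map_mul, inv_mul_cancel, map_one]
      have h2 : R g.1 * R g.1⁻¹ = 1 := by rw [← map_mul, mul_inv_cancel, map_one]
      have h3 : R g.1 * x₀ * R g.1⁻¹ * (R g.1 * x₀ * R g.1⁻¹) =
          R g.1 * (x₀ * (R g.1⁻¹ * R g.1) * x₀) * R g.1⁻¹ := by noncomm_ring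
      rw [h3, h1, mul_one, hxx, mul_smul_comm, mul_one, smul_mul_assoc, h2]
    · change R g.1 ((Y (resR R Δ U hUΔ g⁻¹ u) : U) : X) = R g.1 (x₀ (R g.1⁻¹ u))
      rw [hYx]
      rfl
  have hirrU : ∀ W : Submodule K U, (∀ g : Δ, ∀ u ∈ W, resR R Δ U hUΔ g u ∈ W) →
      W = ⊥ ∨ W = ⊤ := fun W h => sIrr_res hU Δ hΔ hUΔ ⊤ inferInstance W (fun g _ => h g)
  obtain ⟨P, hP1, hP2, hP3⟩ := clifford hirrU hS (W := W) (fun Y hY => hW Y hY)
  let Q : Module.End K X := U.subtype.comp (P.comp (q.codRestrict U hq1))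
  obtain ⟨Δ', hΔ', hc⟩ := hP Q (by
    intro x₀ hx₀ hxx
    have hst : ∀ u ∈ U, x₀ u ∈ U := by
      intro u hu
      have h1 := hqc x₀ hx₀ u
      rw [hq2 u hu] at h1
      rw [h1]
      exact hq1 _
    have h1 := hP3 (x₀.restrict hst) ⟨x₀, hx₀, hxx, fun u => rfl⟩
    refine LinearMap.ext fun v => ?_
    change ((P (q.codRestrict U hq1 (x₀ v)) : U) : X) = x₀ ((P (q.codRestrict U hq1 v) : U) : X)
    have h2 : q.codRestrict U hq1 (x₀ v) = x₀.restrict hst (q.codRestrict U hq1 v) :=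
      Subtype.ext (hqc x₀ hx₀ v).symm
    rw [h2]
    have h3 := congrArg (fun f : Module.End K U => f (q.codRestrict U hq1 v)) h1
    exact congrArg Subtype.val h3)
  have hQW : ∀ v, Q v ∈ W.map U.subtype := fun v => ⟨_, hP1 _, rfl⟩
  have hQW' : ∀ w ∈ W.map U.subtype, Q w = w := by
    rintro _ ⟨w, hw, rfl⟩
    change ((P (q.codRestrict U hq1 (w : X)) : U) : X) = w
    have h2 : q.codRestrict U hq1 (w : X) = w := Subtype.ext (hq2 w w.2)
    rw [h2, hP2 w hw]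
  have hpot : Pot R (W.map U.subtype) := by
    refine ⟨Δ', hΔ', fun g hg u hu => ?_⟩
    have h1 := congrArg (fun f : Module.End K X => f u) (hc g hg)
    have h2 : Q (R g u) = R g (Q u) := h1
    rw [← hQW' u hu, ← h2]
    exact hQW _
  rcases hU.2.2 _ (Submodule.map_subtype_le _ _) hpot with h2 | h2
  · left
    rw [eq_bot_iff]
    intro u hu
    have h3 : (u : X) ∈ W.map U.subtype := ⟨u, hu, rfl⟩
    rw [h2, Submodule.mem_bot] at h3
    rw [Submodule.mem_bot]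
    exact Subtype.ext h3
  · right
    rw [eq_top_iff]
    intro u _
    have h3 : (u : X) ∈ W.map U.subtype := by
      rw [h2]
      exact u.2
    obtain ⟨u', hu', huu⟩ := h3
    have h4 : u' = u := Subtype.ext huu
    rw [← h4]
    exact hu'

theorem coreProp_odd [IsAlgClosed K] (ω : X →ₗ[K] X →ₗ[K] K)
    (hnd : ∀ u, (∀ v, ω u v = 0) → u = 0)
    (hωR : ∀ g u v, ω (R g u) (R g v) = χ g * ω u v) (hss : HasProj R)
    (hP : WeakHodgeGenerate R χ) {U : Submodule K X} (hU : SI R U)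
    {γ : Γ} (hγ : (R γ - 1) * (R γ - 1) = 0)
    (hodd : Odd (finrank K (U.map (R γ - 1)))) : CoreProp R χ U := by
  intro Δ hΔ hUΔ 𝔥 om halt hnd' hsim hbr hconj hsp hlie
  have hanti := alt_anti halt
  have hnd'' : ∀ u, (∀ v, om u v = 0) → u = 0 := fun u hu => hnd' u fun v => by
    rw [hanti, hu, neg_zero]
  obtain ⟨x, hx, hx0⟩ := exists_ne (U := U) (x := R γ - 1) (by
    intro h
    rw [h, finrank_bot] at hodd
    exact absurd hodd (by decide))
  have hχ : χ γ = 1 := unip_chi ω hnd hωR γ hγ hx0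
  obtain ⟨N, hN, hNx⟩ := hlie _ (unip_lieT R χ γ hγ hχ)
  have hN2 : N * N = 0 := by
    have h3 := sq_res hNx 0 (by rw [hγ, zero_smul])
    rw [h3, zero_smul]
  obtain ⟨e, he, hr⟩ := exists_rank_one_odd halt hnd'' Pool.Agent.W72.OT.Bound.main hbr hsp
    (fun W hW => irr_weak ω hnd hωR hss hP hU Δ hΔ hUΔ W (by
      rintro Y ⟨x₀, hx₀, hxx, hYx⟩
      obtain ⟨Y', hY', hYx'⟩ := hlie x₀ hx₀
      have h1 : Y = Y' := LinearMap.ext fun u => Subtype.ext (by rw [hYx, hYx'])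
      exact hW Y (h1 ▸ hY') (sq_res hYx _ hxx))) hN hN2 (by rw [rk_res hNx]; exact hodd)
  exact all_of_rank_one (resR R Δ U hUΔ) (χ.comp Δ.subtype) (sIrr_res hU Δ hΔ hUΔ) hbr hconj om
    halt hnd' hsim hsp he hr

/-- For every strongly irreducible subspace `U` of dimension at least two there is an element `γ`
of the group with `(γ - 1) ^ 2 = 0` such that the rank of `γ - 1` on `U` is one, or it is odd and
`U` is self-dual with an alternating pairing. -/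
def HasOddUnipotents (R : Representation K Γ X) (χ : Γ →* K) : Prop :=
  ∀ U, SI R U → 2 ≤ finrank K U → ∃ γ : Γ, (R γ - 1) * (R γ - 1) = 0 ∧
    (finrank K (U.map (R γ - 1)) = 1 ∨ (Odd (finrank K (U.map (R γ - 1))) ∧ AltDual R χ U))

theorem main_odd [IsAlgClosed K] (ω : X →ₗ[K] X →ₗ[K] K)
    (hnd : ∀ u, (∀ v, ω u v = 0) → u = 0)
    (hωR : ∀ g u v, ω (R g u) (R g v) = χ g * ω u v)
    (hP : WeakHodgeGenerate R χ)
    (hcu : HasOddUnipotents R χ) (hR2 : LinesNotSelfDual R χ) (hH : TwistFree R χ)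
    (hD : DetIndependent R χ) (hss : HasProj R)
    {m : ℕ} (φ : MultilinearMap K (fun _ : Fin m × Fin 2 => X) K) (hφ : IsTate R χ m φ) :
    φ ∈ Submodule.span K (PT R χ m) := by
  refine main_X3 ω hnd hωR ?_ hss hR2 hH hD φ hφ
  intro U hU h2
  obtain ⟨γ, hγ, hr | ⟨hodd, halt⟩⟩ := hcu U hU h2
  · exact ⟨γ, hγ, Or.inl hr⟩
  · refine ⟨γ, hγ, Or.inr ⟨?_, halt, coreProp_odd ω hnd hωR hss hP hU hγ hodd⟩⟩
    intro h
    rw [h, finrank_bot] at hodd
    exact absurd hodd (by decide)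

end

end Pool.Agent.W528.Odd
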