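import Mathlib
import Pool.Agent.W528.Odd.Core
import Pool.Agent.W522.U.A1

/-!
# From square-zero elements of rank prime to the dimension to elements of rank one
-/

set_option linter.unusedSectionVars false
set_option linter.deprecated false

namespace Pool.Agent.W528.Odd

open Module Pool.Agent.H204R3.SP Pool.Agent.W529.Ta Pool.Agent.W522.U

noncomputable section

variable {K : Type} [Field K] [CharZero K] [IsAlgClosed K]
  {I : Type} [DecidableEq I] {E : I → Type} [∀ i, AddCommGroup (E i)]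
  [∀ i, Module K (E i)] [∀ i, FiniteDimensional K (E i)] {G : Type} [Group G]
  {r : ∀ i, Representation K G (E i)} {χ : G →* K}
  {𝔥 : Submodule K (∀ i, Module.End K (E i))}

theorem nil_of_odd (h𝔥 : LieFam r 𝔥) (i : I) (ω : E i →ₗ[K] E i →ₗ[K] K)
    (halt : ∀ v, ω v v = 0) (hnd : ∀ u, (∀ v, ω v u = 0) → u = 0)
    (hsim : ∀ g u v, ω (r i g u) (r i g v) = χ g * ω u v)
    (hsp : ∀ X ∈ 𝔥, ∀ u v, ω (X i u) v + ω u (X i v) = 0) (hirr : Irr (r i))
    {N : ∀ i, Module.End K (E i)} (hN : N ∈ 𝔥) (hNN : ∀ j, N j * N j = 0)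
    (hcop : Nat.Coprime (finrank K (LinearMap.range (N i))) (finrank K (E i)))
    {Y : ∀ i, Module.End K (E i)} (hY : Y ∈ 𝔥) (hYY : Y i * Y i = (1 / 4 : K) • 1)
    (hdim : 2 ≤ finrank K (E i)) :
    ∃ N' ∈ 𝔥, (∀ j, N' j * N' j = 0) ∧ ∃ (u : E i) (φ : Dual K (E i)),
      u ≠ 0 ∧ φ ≠ 0 ∧ N' i = φ.smulRight u := by
  have hanti := alt_anti halt
  have hN0 : N i ≠ 0 := by
    intro h
    rw [h, LinearMap.range_zero, finrank_bot, Nat.coprime_zero_left] at hcop
    omega
  have hall : ∀ u v, SS ω u v ∈ 𝔥.map (LinearMap.proj i) := by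
    refine odd_core (𝔥 := 𝔥.map (LinearMap.proj i)) (r i) χ hirr ?_ ?_ ω halt hnd hsim ?_
      (N := N i) (X := Y i) ⟨N, hN, rfl⟩ (hNN i) hcop ⟨Y, hY, rfl⟩ hYY hdim
    · rintro _ ⟨X, hX, rfl⟩ _ ⟨Y, hY, rfl⟩
      exact ⟨brk X Y, h𝔥.br X hX Y hY, rfl⟩
    · rintro s _ ⟨X, hX, rfl⟩
      exact ⟨_, h𝔥.conj s X hX, rfl⟩
    · rintro _ ⟨X, hX, rfl⟩ u w
      exact hsp X hX u w
  obtain ⟨w, hw⟩ : ∃ w, N i w ≠ 0 := by
    by_contra hcon
    push Not at hcon
    exact hN0 (LinearMap.ext hcon)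
  obtain ⟨Z, hZ, hZi⟩ := hall w w
  have hZi' : Z i = SS ω w w := hZi
  have hmem : (-(1 / 2 : K)) • brk N (brk N Z) ∈ 𝔥 :=
    𝔥.smul_mem _ (h𝔥.br _ hN _ (h𝔥.br _ hN _ hZ))
  have heq : ∀ j, ((-(1 / 2 : K)) • brk N (brk N Z)) j = N j * Z j * N j := by
    intro j
    change (-(1 / 2 : K)) • (N j * (N j * Z j - Z j * N j) - (N j * Z j - Z j * N j) * N j) = _
    have h1 : N j * (N j * Z j - Z j * N j) - (N j * Z j - Z j * N j) * N j =
        (-2 : K) • (N j * Z j * N j) := by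
      have h2 : N j * (N j * Z j - Z j * N j) - (N j * Z j - Z j * N j) * N j =
          (N j * N j) * Z j - N j * Z j * N j - N j * Z j * N j + Z j * (N j * N j) := by
        noncomm_ring
      rw [h2, hNN, zero_mul, mul_zero, zero_sub, add_zero]
      module
    rw [h1, smul_smul]
    norm_num
  refine ⟨_, hmem, fun j => ?_, N i w, (-2 : K) • ω (N i w), hw, ?_, ?_⟩
  · rw [heq]
    have h1 : N j * Z j * N j * (N j * Z j * N j) = N j * Z j * (N j * N j) * (Z j * N j) := by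
      noncomm_ring
    rw [h1, hNN, mul_zero, zero_mul]
  · intro h0
    apply hw
    apply hnd
    intro v
    have h1 := congrArg (fun f : Dual K (E i) => f v) h0
    simp only [LinearMap.smul_apply, smul_eq_mul, LinearMap.zero_apply] at h1
    rw [hanti]
    have h2 : ω (N i w) v = 0 := (mul_eq_zero.1 h1).resolve_left (by norm_num)
    rw [h2, neg_zero]
  · rw [heq]
    refine LinearMap.ext fun v => ?_
    rw [Module.End.mul_apply, Module.End.mul_apply, hZi', SS_apply, LinearMap.smulRight_apply,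
      LinearMap.smul_apply, map_add, map_smul, ← add_smul, smul_eq_mul]
    congr 1
    have h1 := hsp N hN w v
    linear_combination 2 * h1

end

end Pool.Agent.W528.Odd
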